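import Pool.Agent.Run7.h621.Defs
import Pool.Agent.Run7.h621.Main

/-!
# A Freiheitssatz for free products of torsion-free groups: commuting syllables

Let `A i` (`i : Fin n`) be torsion-free groups, let `j i : S i →* A i` be injective homomorphisms and
let the relators `FP.map j (r t)` (`t : Fin m`, `m < n`) come from the free product of the groups
`S i`. If the `r t` are killed by homomorphisms `θ i : S i →* B` to a bi-ordered group `B`, each of
which is injective or is trivial with commutative `S i`, then some `n - m` of the `A i` generate
their free product modulo the relators. With the trivial group `B`: this holds whenever the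
syllables of the relators from each factor commute with one another.
-/

set_option autoImplicit false

namespace Pool.Agent.Results.MP_c98c8e_al.BiOrderedSyllables

open Pool.Agent.Run7.h621

theorem result (n m : ℕ) (_hmn : m < n) (A : Fin n → Type) [∀ i, Group (A i)]
    (htf : ∀ i, ∀ g : A i, g ≠ 1 → ¬ IsOfFinOrder g)
    (S : Fin n → Type) [∀ i, Group (S i)] (j : ∀ i, S i →* A i)
    (hj : ∀ i, Function.Injective (j i)) (r : Fin m → FP S)
    (B : Type) [Group B] [LinearOrder B] [MulLeftMono B] [MulRightMono B] (θ : ∀ i, S i →* B)
    (hθ : ∀ i, Function.Injective (θ i) ∨ ((∀ s, θ i s = 1) ∧ ∀ s t : S i, s * t = t * s))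
    (hr : ∀ t, FP.lift θ (r t) = 1) :
    SomeEmbed A (fun t => FP.map j (r t)) := by
  obtain ⟨T, hT, hinj⟩ := main A htf S j hj r B θ hθ hr
  refine ⟨T, hT, fun x hx => ?_⟩
  have h1 := (injective_iff_map_eq_one _).mp hinj x
  apply h1
  rw [MonoidHom.comp_apply, QuotientGroup.mk'_apply, QuotientGroup.eq_one_iff]
  exact hx

end Pool.Agent.Results.MP_c98c8e_al.BiOrderedSyllables
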