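import Pool.Agent.Run7.h621.Defs
import Pool.Agent.Run7.h621.T2.Resid

/-!
# A Freiheitssatz for free products: fully residually free syllable groups

Let `A i` (`i : Fin n`) be arbitrary groups, let `j i : S i →* A i` be injective homomorphisms of
fully residually free groups `S i` (for instance: free groups, free abelian groups, free products of
these, surface groups, limit groups) and let the relators `FP.map j (r t)` (`t : Fin m`, `m < n`)
come from the free product of the `S i`. Then some `n - m` of the `A i` generate their free product
modulo the relators.
-/

set_option autoImplicit false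

namespace Pool.Agent.Results.MP_c98c8e_al.LimitGroupSyllables

open Pool.Agent.Run7.h621

/-- A group is fully residually free if for each finite set of nontrivial elements there is a
homomorphism to a free group which maps none of them to `1`. -/
def FullyResiduallyFree (S : Type) [Group S] : Prop :=
  ∀ X : Finset S, (∀ x ∈ X, x ≠ 1) → ∃ (α : Type) (φ : S →* FreeGroup α), ∀ x ∈ X, φ x ≠ 1

theorem result (n m : ℕ) (_hmn : m < n) (A : Fin n → Type) [∀ i, Group (A i)]
    (S : Fin n → Type) [∀ i, Group (S i)] (hS : ∀ i, FullyResiduallyFree (S i))
    (j : ∀ i, S i →* A i) (hj : ∀ i, Function.Injective (j i)) (r : Fin m → FP S) :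
    SomeEmbed A (fun t => FP.map j (r t)) := by
  obtain ⟨T, hT, hinj⟩ := T2.main_resid A S hS j hj r
  refine ⟨T, hT, fun x hx => ?_⟩
  have h1 := (injective_iff_map_eq_one _).mp hinj x
  apply h1
  rw [MonoidHom.comp_apply, QuotientGroup.mk'_apply, QuotientGroup.eq_one_iff]
  exact hx

end Pool.Agent.Results.MP_c98c8e_al.LimitGroupSyllables
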